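import Pool.Agent.H345Z.WP.Par

/-!
# A finitely generated non-solvable group whose word problem is not ALOGTIME-hard
-/

namespace Pool.Agent.Results.MP_458e77_lc.ANotHard

open H345Z.WP

/-- There is a finitely generated non-solvable group `G` such that for every finite alphabet `A`,
every evaluation `π` of the letters in `G` (in particular every finite symmetric generating set)
and every injective block code, the word problem is not hard for ALOGTIME, even under
non-uniform AC0 Turing reductions. -/
theorem result : ∃ (G : Type) (_ : Group G), Group.FG G ∧ ¬ Group.IsSolvable G ∧
    ∀ (A : Type) [Finite A] (π : A → G) (k : ℕ) (enc : A → Fin k → Bool),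
      Function.Injective enc → ¬ ALogTimeHard (wordProblem π enc) :=
  H345Z.WP.main

end Pool.Agent.Results.MP_458e77_lc.ANotHard
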